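import Pool.Agent.R59.SP.Det

/-!
# The analytic core: the Fredholm series satisfy `D(v) > D(w)/2`
-/

set_option autoImplicit false

noncomputable section

namespace R59.SP

open MeasureTheory Filter Topology
open scoped SchwartzMap FourierTransform ENNReal ComplexConjugate ComplexOrder

/-- The decay factor. -/
def T (σ : ℝ) (M : ℕ) (x : ℝ) : ℝ :=
  (2 * Real.pi * σ * |x|) ^ M * Real.exp (2 * Real.pi * σ * |x|) / (M.factorial : ℝ)

/-- The bound for the kernel on the diagonal. -/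
def kap (σ : ℝ) (M : ℕ) (x : ℝ) : ℝ := 2 * σ * min 1 (T σ M x ^ 2)

lemma kap_nonneg {σ : ℝ} (hσ : 0 < σ) (M : ℕ) (x : ℝ) : 0 ≤ kap σ M x := by
  unfold kap
  have : 0 ≤ min 1 (T σ M x ^ 2) := le_min zero_le_one (sq_nonneg _)
  positivity

lemma kap_le {σ : ℝ} (hσ : 0 < σ) (M : ℕ) (x : ℝ) : kap σ M x ≤ 2 * σ := by
  unfold kap
  have : min 1 (T σ M x ^ 2) ≤ 1 := min_le_left _ _
  nlinarith

lemma T_cont (σ : ℝ) (M : ℕ) : Continuous (T σ M) := by
  unfold T
  fun_prop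

lemma kap_cont (σ : ℝ) (M : ℕ) : Continuous (kap σ M) := by
  unfold kap
  have := T_cont σ M
  fun_prop

lemma T_tendsto (σ x : ℝ) : Tendsto (fun M => T σ M x) atTop (𝓝 0) := by
  unfold T
  have h := FloorSemiring.tendsto_pow_div_factorial_atTop (2 * Real.pi * σ * |x|)
  have h2 := h.mul_const (Real.exp (2 * Real.pi * σ * |x|))
  rw [zero_mul] at h2
  refine h2.congr fun M => ?_
  ring

lemma kap_tendsto (σ x : ℝ) : Tendsto (fun M => kap σ M x) atTop (𝓝 0) := by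
  unfold kap
  have h := (T_tendsto σ x).pow 2
  have h2 := (tendsto_const_nhds (x := (1:ℝ))).min h
  have h3 := h2.const_mul (2 * σ)
  simpa using h3

lemma hk_integrable {σ : ℝ} (hσ : 0 < σ) {h : ℝ → ℝ} (hi : Integrable h)
    (M : ℕ) : Integrable (fun x => h x * kap σ M x) := by
  have := hi.bdd_mul (c := 2 * σ) (f := fun x => kap σ M x)
    (kap_cont σ M).aestronglyMeasurable (Filter.Eventually.of_forall fun x => by
      rw [Real.norm_eq_abs, abs_of_nonneg (kap_nonneg hσ M x)]; exact kap_le hσ M x)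
  refine this.congr (Filter.Eventually.of_forall fun x => ?_)
  simp only
  ring

lemma exists_M {σ : ℝ} (hσ : 0 < σ) {h : ℝ → ℝ} (h0 : ∀ x, 0 ≤ h x)
    (hi : Integrable h) : ∃ M : ℕ, 1 ≤ M ∧ ∫ x, h x * kap σ M x ≤ 1 / 4 := by
  have key : Tendsto (fun M => ∫ x, h x * kap σ M x) atTop (𝓝 (∫ x : ℝ, (0 : ℝ))) := by
    refine tendsto_integral_of_dominated_convergence (fun x => 2 * σ * h x) ?_ ?_ ?_ ?_
    · intro M
      exact (hk_integrable hσ hi M).aestronglyMeasurable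
    · exact hi.const_mul _
    · intro M
      refine Filter.Eventually.of_forall fun x => ?_
      rw [Real.norm_eq_abs, abs_of_nonneg (mul_nonneg (h0 x) (kap_nonneg hσ M x))]
      have := mul_le_mul_of_nonneg_left (kap_le hσ M x) (h0 x)
      linarith
    · refine Filter.Eventually.of_forall fun x => ?_
      have := (kap_tendsto σ x).const_mul (h x)
      simpa using this
  rw [integral_zero] at key
  have h1 : ∀ᶠ M in atTop, ∫ x, h x * kap σ M x < 1 / 4 :=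
    key.eventually_lt_const (by norm_num)
  obtain ⟨M, hM, hM1⟩ := (h1.and (eventually_ge_atTop 1)).exists
  exact ⟨M, hM1, hM.le⟩

/-- The lower bound on the quadratic form of `1 - A_w`. -/
lemma delta_bound (hPW1 : S_PW1) {w : ℝ → ℝ} (wc : Continuous w) (w0 : ∀ x, 0 ≤ w x)
    (w1 : ∀ x, w x ≤ 1) {γ : ℝ} (γ0 : 0 < γ) (hγ : ∀ x, 1 / 4 ≤ |x| → w x ≤ 1 - γ)
    {N : ℕ} (ψ : Fin N → 𝓢(ℝ, ℂ)) (hbl : ∀ a, BL (1 / 2) (ψ a))
    (bes : ∀ c : Fin N → ℂ, ∫ x : ℝ, ‖∑ a, c a * ψ a x‖ ^ 2 ≤ ∑ a, ‖c a‖ ^ 2)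
    (c : Fin N → ℂ) :
    ∫ t : ℝ, w t * ‖fc ψ c t‖ ^ 2 ≤ (1 - γ / 2) * ∑ a, ‖c a‖ ^ 2 := by
  have γ1 : γ ≤ 1 := by
    have := hγ 1 (by norm_num)
    linarith [w0 1]
  have bf : BL (1 / 2) (∑ a, c a • ψ a) := BL.sum _ _ fun a _ => (hbl a).smul _
  set E : ℝ := ∫ t : ℝ, ‖fc ψ c t‖ ^ 2 with hE
  have E0 : 0 ≤ E := integral_nonneg fun t => by positivity
  have sup : ∀ x, ‖fc ψ c x‖ ^ 2 ≤ E := by
    intro x
    have := hPW1 (1 / 2) (by norm_num) _ bf x
    simp only [← fc_eq] at this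
    linarith
  have one_int : Integrable (fun t : ℝ => ‖fc ψ c t‖ ^ 2) := by
    simpa using integrable_fc ψ (φ := fun _ => (1:ℝ)) continuous_const
      (fun _ => zero_le_one) (fun _ => le_rfl) c
  have ind_int : Integrable ((Set.Ioo (-(1/4) : ℝ) (1/4)).indicator (fun _ => (γ * E : ℝ))) := by
    rw [integrable_indicator_iff measurableSet_Ioo]
    exact (continuous_const.integrableOn_Icc).mono_set Set.Ioo_subset_Icc_self
  have hle : ∫ t : ℝ, w t * ‖fc ψ c t‖ ^ 2 ≤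
      ∫ t : ℝ, ((1 - γ) * ‖fc ψ c t‖ ^ 2 +
        (Set.Ioo (-(1/4) : ℝ) (1/4)).indicator (fun _ => (γ * E : ℝ)) t) := by
    refine integral_mono (integrable_fc ψ wc w0 w1 c) ((one_int.const_mul _).add ind_int)
      fun t => ?_
    by_cases ht : t ∈ Set.Ioo (-(1/4) : ℝ) (1/4)
    · simp only [Set.indicator_of_mem ht]
      have a1 := sup t
      have a2 := w1 t
      have a3 : 0 ≤ ‖fc ψ c t‖ ^ 2 := by positivity
      have a4 : w t * ‖fc ψ c t‖ ^ 2 ≤ 1 * ‖fc ψ c t‖ ^ 2 := mul_le_mul_of_nonneg_right a2 a3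
      have a5 : γ * ‖fc ψ c t‖ ^ 2 ≤ γ * E := mul_le_mul_of_nonneg_left a1 γ0.le
      linarith
    · simp only [Set.indicator_of_notMem ht, add_zero]
      have : 1 / 4 ≤ |t| := by
        by_contra hcon
        push Not at hcon
        exact ht (abs_lt.1 hcon)
      exact mul_le_mul_of_nonneg_right (hγ t this) (by positivity)
  rw [integral_add (one_int.const_mul _) ind_int, integral_const_mul,
    integral_indicator measurableSet_Ioo, setIntegral_const] at hle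
  have hv : (volume.real (Set.Ioo (-(1/4) : ℝ) (1/4))) = 1 / 2 := by
    rw [Real.volume_real_Ioo_of_le (by norm_num)]
    norm_num
  rw [hv, smul_eq_mul] at hle
  have h2 : E ≤ ∑ a, ‖c a‖ ^ 2 := bes c
  have h3 : (1 - γ) * E + 1 / 2 * (γ * E) = (1 - γ / 2) * E := by ring
  rw [← hE] at hle
  calc ∫ t : ℝ, w t * ‖fc ψ c t‖ ^ 2 ≤ (1 - γ / 2) * E := by linarith
    _ ≤ (1 - γ / 2) * ∑ a, ‖c a‖ ^ 2 := mul_le_mul_of_nonneg_left h2 (by linarith)

/-- The Fredholm series of the sine kernel. -/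
def Dser (φ : ℝ → ℝ) : ℝ := ∑' n : ℕ, ((-1 : ℝ) ^ n / (n.factorial : ℝ)) * Iint n φ

theorem core (hKER : S_KER) (hPW1 : S_PW1) (hPW2 : S_PW2) (hMUL : S_MUL) (hMO : S_MOTHER)
    (hLA1 : S_LA1) (hLA2 : S_LA2) (hLIM : S_LIM) (B : ℝ) (hB : 0 < B) (l : ℝ) :
    ∃ (w h v : ℝ → ℝ) (Wf Hf Vf : 𝓢(ℝ, ℂ)),
      (∀ x, Wf x = ((w x : ℝ) : ℂ)) ∧ (∀ x, Hf x = ((h x : ℝ) : ℂ)) ∧
      (∀ x, Vf x = ((v x : ℝ) : ℂ)) ∧ BL B Wf ∧ BL B Vf ∧
      (∀ x, 0 ≤ w x) ∧ (∀ x, w x ≤ 1) ∧ (∀ x, 0 ≤ h x) ∧ (∀ x, h x ≤ 1) ∧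
      (∀ x, 1 - v x = (1 - w x) * (1 - h x)) ∧ (∀ x, |x| ≤ l → 1 / 2 ≤ h x) ∧
      Summable (fun n : ℕ => ((-1 : ℝ) ^ n / (n.factorial : ℝ)) * Iint n v) ∧
      Summable (fun n : ℕ => ((-1 : ℝ) ^ n / (n.factorial : ℝ)) * Iint n w) ∧
      (1 / 2) * Dser w < Dser v := by
  obtain ⟨ψ0, p0, p1, pz, pc, pgap, ⟨C, hC⟩, psch⟩ := hMO
  -- the function h
  set C' : ℝ := max C 1 with hC'
  have C'1 : 1 ≤ C' := le_max_right _ _
  set r0 : ℝ := 1 / (2 * C') with hr0
  have r0pos : 0 < r0 := by positivity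
  set β : ℝ := min (B / 2) (r0 / (|l| + 1)) with hβ
  have βpos : 0 < β := lt_min (by positivity) (by positivity)
  obtain ⟨Hf, hHf, bHf⟩ := psch β βpos
  set h : ℝ → ℝ := fun x => ψ0 (β * x) with hh
  have hhalf : ∀ x, |x| ≤ l → 1 / 2 ≤ h x := by
    intro x hx
    have h1 := hC (β * x)
    have h2 : C * |β * x| ≤ C' * |β * x| :=
      mul_le_mul_of_nonneg_right (le_max_left _ _) (abs_nonneg _)
    have h3 : |β * x| ≤ r0 := by
      rw [abs_mul, abs_of_pos βpos]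
      have h4 : β ≤ r0 / (|l| + 1) := min_le_right _ _
      have h5 : |x| ≤ |l| + 1 := by linarith [le_abs_self l]
      calc β * |x| ≤ r0 / (|l| + 1) * (|l| + 1) :=
            mul_le_mul h4 h5 (abs_nonneg _) (by positivity)
        _ = r0 := by field_simp
    have h6 : C' * |β * x| ≤ 1 / 2 := by
      calc C' * |β * x| ≤ C' * r0 := mul_le_mul_of_nonneg_left h3 (by linarith)
        _ = 1 / 2 := by rw [hr0]; field_simp
    simp only [hh]
    linarith
  have h0 : ∀ x, 0 ≤ h x := fun x => p0 _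
  have h1 : ∀ x, h x ≤ 1 := fun x => p1 _
  have hcont : Continuous h := cont_of hHf
  have hint : Integrable h := integrable_of hHf
  -- the order M
  set σ : ℝ := 1 / 2 + B / 4 with hσ
  have σpos : 0 < σ := by positivity
  obtain ⟨M, M1, hM⟩ := exists_M σpos h0 hint
  have M1' : (1 : ℝ) ≤ M := by exact_mod_cast M1
  set ε : ℝ := B / (4 * M) with hε
  have εpos : 0 < ε := by positivity
  obtain ⟨Ψ, hΨ, bΨ⟩ := psch ε εpos
  obtain ⟨Wf, hWf, bWf⟩ := wpow hMUL εpos.le hΨ bΨ (2 * M)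
  set w : ℝ → ℝ := fun x => 1 - (1 - ψ0 (ε * x)) ^ (2 * M) with hw
  have bWf' : BL (B / 2) Wf := by
    refine bWf.mono ?_
    rw [hε]
    push_cast
    have : (2 * (M : ℝ)) * (B / (4 * M)) = B / 2 := by field_simp; norm_num
    rw [this]
  have g0 : ∀ x, 0 ≤ 1 - ψ0 (ε * x) := fun x => by linarith [p1 (ε * x)]
  have g1 : ∀ x, 1 - ψ0 (ε * x) ≤ 1 := fun x => by linarith [p0 (ε * x)]
  have w0 : ∀ x, 0 ≤ w x := fun x => by
    have := pow_le_one₀ (n := 2 * M) (g0 x) (g1 x)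
    simp only [hw]; linarith
  have w1 : ∀ x, w x ≤ 1 := fun x => by
    have := pow_nonneg (g0 x) (2 * M)
    simp only [hw]; linarith
  have wcont : Continuous w := cont_of hWf
  have wint : Integrable w := integrable_of hWf
  obtain ⟨Vf, hVf, bVf⟩ := comb hMUL (by positivity) βpos.le hWf hHf bWf' bHf
  set v : ℝ → ℝ := fun x => 1 - (1 - w x) * (1 - h x) with hv
  have bVf' : BL B Vf := by
    refine bVf.mono ?_
    have : β ≤ B / 2 := min_le_left _ _
    linarith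
  have vcont : Continuous v := cont_of hVf
  have vint : Integrable v := integrable_of hVf
  have v0 : ∀ x, 0 ≤ v x := fun x => by
    have := mul_le_one₀ (a := 1 - w x) (b := 1 - h x) (by linarith [w0 x])
      (by linarith [h1 x]) (by linarith [h0 x])
    simp only [hv]; linarith
  -- gap of w away from zero
  obtain ⟨c0, c0pos, hc0⟩ := pgap (ε / 4) (by positivity)
  have c01 : c0 ≤ 1 := by
    have := hc0 (ε / 4) (le_abs_self _)
    linarith [p0 (ε / 4)]
  set γ : ℝ := c0 ^ (2 * M) with hγ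
  have γpos : 0 < γ := by positivity
  have hwγ : ∀ x, 1 / 4 ≤ |x| → w x ≤ 1 - γ := by
    intro x hx
    have a1 : ε / 4 ≤ |ε * x| := by
      rw [abs_mul, abs_of_pos εpos]
      nlinarith
    have a2 := hc0 _ a1
    have a3 : c0 ≤ 1 - ψ0 (ε * x) := by linarith
    have a4 := pow_le_pow_left₀ c0pos.le a3 (2 * M)
    simp only [hw]
    linarith
  obtain ⟨d, ψ, kbl, kbes, ksq, klim⟩ := hKER
  obtain ⟨sumv, limv⟩ := hLIM d ψ ksq klim v vcont v0 vint
  obtain ⟨sumw, limw⟩ := hLIM d ψ ksq klim w wcont w0 wint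
  refine ⟨w, h, v, Wf, Hf, Vf, hWf, hHf, hVf, bWf'.mono (by linarith), bVf', w0, w1, h0, h1,
    fun x => by simp only [hv]; ring, hhalf, sumv, sumw, ?_⟩
  have hG : ∀ x, 1 - w x = ((1 - ψ0 (ε * x)) ^ M) ^ 2 := by
    intro x
    simp only [hw]
    rw [← pow_mul, mul_comm M 2]
    ring
  have δpos : 0 < γ / 2 := by positivity
  -- comparison for every N
  have cmp : ∀ N, (3 / 4) * ((1 - Amat (ψ N) w).det).re ≤ ((1 - Amat (ψ N) v).det).re := by
    intro N
    have hδ := fun c => delta_bound hPW1 wcont w0 w1 γpos hwγ (ψ N) (kbl N) (kbes N) c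
    have pos : 0 ≤ ((1 - Amat (ψ N) w).det).re := by
      have := hLA2 (d N) (Amat (ψ N) w) (γ / 2) δpos (psd (ψ N) wcont w0 w1) (fun c => by
        rw [quad (ψ N) wcont w0 w1 c, Complex.ofReal_re]; exact hδ c)
      exact (Real.exp_pos _).le.trans this
    have hκ : ∀ (c : Fin (d N) → ℂ) (x : ℝ),
        ‖(((1 - ψ0 (ε * x)) ^ M : ℝ) : ℂ) * fc (ψ N) c x‖ ^ 2 ≤ kap σ M x *
          ∫ t : ℝ, ‖(((1 - ψ0 (ε * t)) ^ M : ℝ) : ℂ) * fc (ψ N) c t‖ ^ 2 := by
      intro c x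
      have bf : BL (1 / 2) (∑ a, c a • ψ N a) := BL.sum _ _ fun a _ => (kbl N a).smul _
      obtain ⟨F, hF, bF⟩ := fpow hMUL εpos.le hΨ bΨ bf M
      have bF' : BL σ F := by
        refine bF.mono ?_
        rw [hσ, hε]
        have : (M : ℝ) * (B / (4 * M)) = B / 4 := by field_simp
        rw [this]
      have hF' : ∀ t, F t = (((1 - ψ0 (ε * t)) ^ M : ℝ) : ℂ) * fc (ψ N) c t := by
        intro t; rw [hF, fc_eq]
      obtain ⟨Cf, hCf⟩ := schwartz_bdd (∑ a, c a • ψ N a)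
      have b1 := hPW1 σ σpos F bF' x
      have b2 := hPW2 σ σpos F bF' M ⟨(C' * ε) ^ M * Cf, fun y _ => by
        rw [hF, norm_mul, Complex.norm_real, Real.norm_eq_abs,
          abs_of_nonneg (pow_nonneg (g0 y) M)]
        have e1 : 1 - ψ0 (ε * y) ≤ C' * ε * |y| := by
          have := hC (ε * y)
          have e2 : C * |ε * y| ≤ C' * |ε * y| :=
            mul_le_mul_of_nonneg_right (le_max_left _ _) (abs_nonneg _)
          rw [abs_mul, abs_of_pos εpos] at this e2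
          linarith
        have e3 := pow_le_pow_left₀ (g0 y) e1 M
        rw [mul_pow] at e3
        have e4 := mul_le_mul e3 (hCf y) (norm_nonneg _) (by positivity)
        linarith [e4]⟩ x
      simp only [hF'] at b1 b2
      have E0 : 0 ≤ ∫ t : ℝ, ‖(((1 - ψ0 (ε * t)) ^ M : ℝ) : ℂ) * fc (ψ N) c t‖ ^ 2 :=
        integral_nonneg fun t => by positivity
      unfold kap
      rcases le_total 1 (T σ M x ^ 2) with hle | hle
      · rw [min_eq_left hle, mul_one]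
        exact b1
      · rw [min_eq_right hle]
        exact b2
    have := det_compare hLA1 (ψ N) (kbes N) wcont w0 w1 hcont h0 h1 hG
      (kap_nonneg σpos M) hκ (hk_integrable σpos hint M) δpos hδ
    have hle : (3 / 4 : ℝ) ≤ 1 - ∫ x, h x * kap σ M x := by linarith
    exact (mul_le_mul_of_nonneg_right hle pos).trans this
  have lower : ∀ N, Real.exp (-(∫ x, w x) / (γ / 2)) ≤ ((1 - Amat (ψ N) w).det).re := by
    intro N
    have hδ := fun c => delta_bound hPW1 wcont w0 w1 γpos hwγ (ψ N) (kbl N) (kbes N) c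
    have a1 := hLA2 (d N) (Amat (ψ N) w) (γ / 2) δpos (psd (ψ N) wcont w0 w1) (fun c => by
        rw [quad (ψ N) wcont w0 w1 c, Complex.ofReal_re]; exact hδ c)
    refine le_trans (Real.exp_le_exp.2 ?_) a1
    have := trace_eq (ψ N) wcont w0 w1 wint (ksq N)
    rw [div_le_div_iff_of_pos_right δpos]
    linarith
  have L1 : (3 / 4) * Dser w ≤ Dser v :=
    le_of_tendsto_of_tendsto' (limw.const_mul (3 / 4)) limv cmp
  have L2 : Real.exp (-(∫ x, w x) / (γ / 2)) ≤ Dser w :=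
    ge_of_tendsto' limw lower
  have := Real.exp_pos (-(∫ x, w x) / (γ / 2))
  linarith

end R59.SP
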