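import Mathlib

/-!
# Point processes mimicking the sine process (MP_dc5c84_pr)

Definitions and the statements of the pieces.
-/

set_option autoImplicit false

noncomputable section

namespace R59.SP

open MeasureTheory Filter Topology
open scoped SchwartzMap FourierTransform ENNReal ComplexConjugate ComplexOrder

/-- The sine kernel. -/
def S (x : ℝ) : ℝ := if x = 0 then 1 else Real.sin (Real.pi * x) / (Real.pi * x)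

/-- The Fourier transform on `ℝ^n`, with the kernel `exp(-2 π i x·ξ)`. -/
def FT (n : ℕ) (η : (Fin n → ℝ) → ℂ) (ξ : Fin n → ℝ) : ℂ :=
  ∫ x : Fin n → ℝ, Complex.exp (-(2 * Real.pi * Complex.I * ((∑ i, x i * ξ i : ℝ) : ℂ))) * η x

/-- A point process on the line whose points are indexed by `ℤ` in nondecreasing order:
each point is a random variable, and almost surely the configuration is locally finite and
unbounded in both directions. -/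
structure IsPP {Ω : Type} [MeasurableSpace Ω] (P : Measure Ω) (u : ℤ → Ω → ℝ) : Prop where
  meas : ∀ j, Measurable (u j)
  mono : ∀ᵐ ω ∂P, Monotone (fun j => u j ω)
  top : ∀ᵐ ω ∂P, Tendsto (fun j => u j ω) atTop atTop
  bot : ∀ᵐ ω ∂P, Tendsto (fun j => u j ω) atBot atBot

/-- Uniform local moments. -/
def ULM {Ω : Type} [MeasurableSpace Ω] (P : Measure Ω) (u : ℤ → Ω → ℝ) : Prop :=
  ∀ n : ℕ, 1 ≤ n → ∃ C : ℝ≥0∞, C ≠ ⊤ ∧ ∀ L : ℝ,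
    ∫⁻ ω, ((({j : ℤ | u j ω ∈ Set.Icc L (L + 1)}.encard : ℕ∞) : ℝ≥0∞)) ^ n ∂P ≤ C

/-- The integral of `η` against the `n`-level correlation measure of the process. -/
def corr {Ω : Type} [MeasurableSpace Ω] (P : Measure Ω) (u : ℤ → Ω → ℝ) (n : ℕ)
    (η : (Fin n → ℝ) → ℂ) : ℂ :=
  ∫ ω, ∑' j : (Fin n ↪ ℤ), η (fun i => u (j i) ω) ∂P

/-- The integral of `η` against the `n`-level correlation measure of the sine process. -/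
def sineCorr (n : ℕ) (η : (Fin n → ℝ) → ℂ) : ℂ :=
  ∫ x : Fin n → ℝ, η x * ((Matrix.det (Matrix.of fun i k => S (x i - x k)) : ℝ) : ℂ)

/-- The process mimics the sine process at bandwidth `B`. -/
def MimicsSine {Ω : Type} [MeasurableSpace Ω] (P : Measure Ω) (u : ℤ → Ω → ℝ) (B : ℝ) : Prop :=
  ∀ n : ℕ, 1 ≤ n → ∀ η : 𝓢(Fin n → ℝ, ℂ),
    (∀ ξ : Fin n → ℝ, FT n η ξ ≠ 0 → ∀ i, |ξ i| ≤ B) →
    corr P u n η = sineCorr n η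

/-- Band limited Schwartz functions of one variable. -/
def BL (σ : ℝ) (f : 𝓢(ℝ, ℂ)) : Prop := ∀ ξ : ℝ, σ < |ξ| → 𝓕 f ξ = 0

/-! ## Statements of the pieces -/

/-- KER: approximation of the sine kernel by finite rank kernels. -/
def S_KER : Prop :=
  ∃ (d : ℕ → ℕ) (ψ : (N : ℕ) → Fin (d N) → 𝓢(ℝ, ℂ)),
    (∀ N a, BL (1 / 2) (ψ N a)) ∧
    (∀ N (c : Fin (d N) → ℂ), ∫ x : ℝ, ‖∑ a, c a * ψ N a x‖ ^ 2 ≤ ∑ a, ‖c a‖ ^ 2) ∧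
    (∀ N (x : ℝ), ∑ a, ‖ψ N a x‖ ^ 2 ≤ 1) ∧
    ∀ x y : ℝ, Tendsto (fun N => ∑ a, ψ N a x * conj (ψ N a y)) atTop (𝓝 ((S (x - y) : ℝ) : ℂ))

/-- PW1: the sup bound. -/
def S_PW1 : Prop :=
  ∀ (σ : ℝ), 0 < σ → ∀ F : 𝓢(ℝ, ℂ), BL σ F → ∀ x : ℝ, ‖F x‖ ^ 2 ≤ 2 * σ * ∫ y : ℝ, ‖F y‖ ^ 2

/-- PW2: smallness near a zero of high order. -/
def S_PW2 : Prop :=
  ∀ (σ : ℝ), 0 < σ → ∀ F : 𝓢(ℝ, ℂ), BL σ F → ∀ M : ℕ,
    (∃ C : ℝ, ∀ x : ℝ, |x| ≤ 1 → ‖F x‖ ≤ C * |x| ^ M) → ∀ x : ℝ,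
    ‖F x‖ ^ 2 ≤ 2 * σ * ((2 * Real.pi * σ * |x|) ^ M * Real.exp (2 * Real.pi * σ * |x|)
      / (M.factorial : ℝ)) ^ 2 * ∫ y : ℝ, ‖F y‖ ^ 2

/-- MUL: products of band limited Schwartz functions. -/
def S_MUL : Prop :=
  ∀ (σ τ : ℝ) (f g : 𝓢(ℝ, ℂ)), BL σ f → BL τ g →
    ∃ h : 𝓢(ℝ, ℂ), (∀ x, h x = f x * g x) ∧ BL (σ + τ) h

/-- MOTHER: the basic band limited function. -/
def S_MOTHER : Prop :=
  ∃ ψ : ℝ → ℝ, (∀ x, 0 ≤ ψ x) ∧ (∀ x, ψ x ≤ 1) ∧ ψ 0 = 1 ∧ Continuous ψ ∧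
    (∀ r : ℝ, 0 < r → ∃ c : ℝ, 0 < c ∧ ∀ x, r ≤ |x| → ψ x ≤ 1 - c) ∧
    (∃ C : ℝ, ∀ x, 1 - ψ x ≤ C * |x|) ∧
    ∀ ε : ℝ, 0 < ε → ∃ Ψ : 𝓢(ℝ, ℂ), (∀ x, Ψ x = ((ψ (ε * x) : ℝ) : ℂ)) ∧ BL ε Ψ

/-- SCHW: products in several variables. -/
def S_SCHW : Prop :=
  ∀ (B : ℝ) (φ : 𝓢(ℝ, ℂ)), BL B φ → ∀ n : ℕ,
    ∃ η : 𝓢(Fin n → ℝ, ℂ), (∀ x, η x = ∏ i, φ (x i)) ∧
      ∀ ξ : Fin n → ℝ, FT n η ξ ≠ 0 → ∀ i, |ξ i| ≤ B

/-- LA1: perturbation of the determinant of a positive definite matrix. -/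
def S_LA1 : Prop :=
  ∀ (N : ℕ) (B C : Matrix (Fin N) (Fin N) ℂ) (τ : ℝ), B.PosDef → C.PosSemidef →
    (B - C).PosSemidef →
    (∀ p : Fin N → (Fin N → ℂ),
      (∀ i j, dotProduct (star (p i)) (B.mulVec (p j)) = if i = j then 1 else 0) →
      ∑ i, (dotProduct (star (p i)) (C.mulVec (p i))).re ≤ τ) →
    (1 - τ) * (B.det).re ≤ ((B - C).det).re

/-- LA2: lower bound for `det (1 - A)`. -/
def S_LA2 : Prop :=
  ∀ (N : ℕ) (A : Matrix (Fin N) (Fin N) ℂ) (δ : ℝ), 0 < δ → A.PosSemidef →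
    (∀ c : Fin N → ℂ, (dotProduct (star c) (A.mulVec c)).re ≤ (1 - δ) * ∑ a, ‖c a‖ ^ 2) →
    Real.exp (-(A.trace).re / δ) ≤ ((1 - A).det).re

/-- LA3: a positive semidefinite matrix with diagonal entries at most one. -/
def S_LA3 : Prop :=
  ∀ (n : ℕ) (A : Matrix (Fin n) (Fin n) ℂ), A.PosSemidef → (∀ i, (A i i).re ≤ 1) →
    0 ≤ (A.det).re ∧ (A.det).re ≤ 1 ∧ (A.det).im = 0

/-- LA4: expansion of `det (1 - A)` in minors. -/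
def S_LA4 : Prop :=
  ∀ (N : ℕ) (A : Matrix (Fin N) (Fin N) ℂ),
    (1 - A).det = ∑ n ∈ Finset.range (N + 1),
      ((-1 : ℂ) ^ n / (n.factorial : ℂ)) * ∑ a : Fin n → Fin N, (A.submatrix a a).det ∧
    ∀ n : ℕ, N < n → ∑ a : Fin n → Fin N, (A.submatrix a a).det = 0

/-- INT: integrals of determinants of finite rank kernels. -/
def S_INT : Prop :=
  ∀ (N : ℕ) (ψ : Fin N → 𝓢(ℝ, ℂ)) (φ : ℝ → ℝ), Continuous φ → Integrable φ → ∀ n : ℕ,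
    ∫ x : Fin n → ℝ, ((∏ i, φ (x i) : ℝ) : ℂ) *
        Matrix.det (Matrix.of fun i k => ∑ a, ψ a (x i) * conj (ψ a (x k))) =
      ∑ a : Fin n → Fin N, Matrix.det (Matrix.submatrix
        (Matrix.of fun p q => ∫ t : ℝ, (φ t : ℂ) * (ψ q t * conj (ψ p t))) a a)

/-- The sum of a product over injective tuples of points of a configuration. -/
def W (n : ℕ) (φ : ℝ → ℝ) (u : ℤ → ℝ) : ℝ := ∑' j : (Fin n ↪ ℤ), ∏ i, φ (u (j i))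

/-- BONF: the inequality for configurations with a point where `h ≥ 1/2`. -/
def S_BONF : Prop :=
  ∀ (u : ℤ → ℝ) (v w h : ℝ → ℝ), (∀ x, 0 ≤ w x) → (∀ x, w x ≤ 1) → (∀ x, 0 ≤ h x) →
    (∀ x, h x ≤ 1) → (∀ x, 1 - v x = (1 - w x) * (1 - h x)) →
    Summable (fun j => w (u j)) → Summable (fun j => h (u j)) →
    (∃ j₀, 1 / 2 ≤ h (u j₀)) → ∀ m : ℕ,
    ∑ n ∈ Finset.range (2 * m + 2), ((-1 : ℝ) ^ n / (n.factorial : ℝ)) * W n v u ≤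
      (1 / 2) * ∑ n ∈ Finset.range (2 * m + 1), ((-1 : ℝ) ^ n / (n.factorial : ℝ)) * W n w u

/-- PROBINT: integrability of the sums over tuples of points. -/
def S_PROBINT : Prop :=
  ∀ {Ω : Type} [MeasurableSpace Ω] (P : Measure Ω) [IsProbabilityMeasure P] (u : ℤ → Ω → ℝ),
    IsPP P u → ULM P u → ∀ φ : ℝ → ℝ, Continuous φ → (∀ x, 0 ≤ φ x) →
    (∃ C : ℝ, ∀ x, φ x ≤ C / (1 + x ^ 2)) →
    (∀ᵐ ω ∂P, Summable (fun j => φ (u j ω))) ∧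
    ∀ n : ℕ, Integrable (fun ω => W n φ (fun j => u j ω)) P

/-- The integrals in the Fredholm series. -/
def Iint (n : ℕ) (φ : ℝ → ℝ) : ℝ :=
  ∫ x : Fin n → ℝ, (∏ i, φ (x i)) * Matrix.det (Matrix.of fun i k => S (x i - x k))

/-- LIM: the Fredholm series of the sine kernel as a limit of determinants. -/
def S_LIM : Prop :=
  ∀ (d : ℕ → ℕ) (ψ : (N : ℕ) → Fin (d N) → 𝓢(ℝ, ℂ)),
    (∀ N (x : ℝ), ∑ a, ‖ψ N a x‖ ^ 2 ≤ 1) →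
    (∀ x y : ℝ, Tendsto (fun N => ∑ a, ψ N a x * conj (ψ N a y)) atTop
      (𝓝 ((S (x - y) : ℝ) : ℂ))) →
    ∀ φ : ℝ → ℝ, Continuous φ → (∀ x, 0 ≤ φ x) → Integrable φ →
    Summable (fun n : ℕ => ((-1 : ℝ) ^ n / (n.factorial : ℝ)) * Iint n φ) ∧
    Tendsto (fun N => ((1 - (Matrix.of fun p q : Fin (d N) =>
        ∫ t : ℝ, (φ t : ℂ) * (ψ N q t * conj (ψ N p t)))).det).re) atTop
      (𝓝 (∑' n : ℕ, ((-1 : ℝ) ^ n / (n.factorial : ℝ)) * Iint n φ))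

end R59.SP
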