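import Pool.Agent.R59.SP.Mat

/-!
# Comparison of `det (1 - A_v)` with `det (1 - A_w)`
-/

set_option autoImplicit false

noncomputable section

namespace R59.SP

open MeasureTheory Filter Topology
open scoped SchwartzMap FourierTransform ENNReal ComplexConjugate ComplexOrder

lemma fc_lin {N m : ℕ} (ψ : Fin N → 𝓢(ℝ, ℂ)) (p : Fin m → (Fin N → ℂ)) (z : Fin m → ℂ)
    (t : ℝ) : fc ψ (∑ i, z i • p i) t = ∑ i, z i * fc ψ (p i) t := by
  unfold fc
  simp only [Finset.sum_apply, Pi.smul_apply, smul_eq_mul, Finset.mul_sum, Finset.sum_mul]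
  rw [Finset.sum_comm]
  refine Finset.sum_congr rfl fun i _ => Finset.sum_congr rfl fun a _ => ?_
  ring

lemma fc_cont {N : ℕ} (ψ : Fin N → 𝓢(ℝ, ℂ)) (c : Fin N → ℂ) : Continuous (fc ψ c) := by
  have : fc ψ c = fun t => (∑ a, c a • ψ a : 𝓢(ℝ, ℂ)) t := by
    funext t; exact fc_eq ψ c t
  rw [this]
  exact (∑ a, c a • ψ a : 𝓢(ℝ, ℂ)).continuous

/-- Expansion of a Hermitian form on an orthonormal family. -/
lemma form_orth {N : ℕ} (B : Matrix (Fin N) (Fin N) ℂ) (p : Fin N → (Fin N → ℂ))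
    (hp : ∀ i j, dotProduct (star (p i)) (B.mulVec (p j)) = if i = j then 1 else 0)
    (z : Fin N → ℂ) :
    dotProduct (star (∑ i, z i • p i)) (B.mulVec (∑ i, z i • p i)) =
      ((∑ i, ‖z i‖ ^ 2 : ℝ) : ℂ) := by
  have h1 : B.mulVec (∑ i, z i • p i) = ∑ i, z i • B.mulVec (p i) := by
    rw [Matrix.mulVec_sum]
    refine Finset.sum_congr rfl fun i _ => ?_
    rw [Matrix.mulVec_smul]
  rw [h1, star_sum]
  rw [sum_dotProduct]
  push_cast
  refine Finset.sum_congr rfl fun i _ => ?_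
  rw [dotProduct_sum]
  simp only [star_smul, smul_dotProduct, dotProduct_smul, hp, smul_eq_mul]
  simp only [mul_ite, mul_one, mul_zero, Finset.sum_ite_eq, Finset.mem_univ, if_true]
  rw [Complex.star_def, Complex.mul_conj, Complex.normSq_eq_norm_sq]
  push_cast
  rfl

theorem det_compare (hLA1 : S_LA1) {N : ℕ} (ψ : Fin N → 𝓢(ℝ, ℂ))
    (bes : ∀ c : Fin N → ℂ, ∫ x : ℝ, ‖∑ a, c a * ψ a x‖ ^ 2 ≤ ∑ a, ‖c a‖ ^ 2)
    {w h G κ : ℝ → ℝ} (wc : Continuous w) (w0 : ∀ x, 0 ≤ w x) (w1 : ∀ x, w x ≤ 1)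
    (hc : Continuous h) (h0 : ∀ x, 0 ≤ h x) (h1 : ∀ x, h x ≤ 1)
    (hG : ∀ x, 1 - w x = G x ^ 2) (κ0 : ∀ x, 0 ≤ κ x)
    (hκ : ∀ (c : Fin N → ℂ) (x : ℝ), ‖(G x : ℂ) * fc ψ c x‖ ^ 2 ≤
      κ x * ∫ t : ℝ, ‖(G t : ℂ) * fc ψ c t‖ ^ 2)
    (hint : Integrable (fun x => h x * κ x)) {δ : ℝ} (δ0 : 0 < δ)
    (hδ : ∀ c : Fin N → ℂ, ∫ t : ℝ, w t * ‖fc ψ c t‖ ^ 2 ≤ (1 - δ) * ∑ a, ‖c a‖ ^ 2) :
    (1 - ∫ x, h x * κ x) * ((1 - Amat ψ w).det).re ≤
      ((1 - Amat ψ (fun x => 1 - (1 - w x) * (1 - h x))).det).re := by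
  set χ : ℝ → ℝ := fun x => (1 - w x) * h x with hχ
  have χc : Continuous χ := (continuous_const.sub wc).mul hc
  have χ0 : ∀ x, 0 ≤ χ x := fun x => mul_nonneg (by linarith [w1 x]) (h0 x)
  have χ1 : ∀ x, χ x ≤ 1 := fun x => by
    have := mul_le_mul (a := 1 - w x) (b := 1) (c := h x) (d := 1)
      (by linarith [w0 x]) (h1 x) (h0 x) (by norm_num)
    simpa using this
  have ev : (fun x => 1 - (1 - w x) * (1 - h x)) = fun x => w x + χ x := by
    funext x; simp only [hχ]; ring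
  have vc : Continuous (fun x => 1 - (1 - w x) * (1 - h x)) :=
    continuous_const.sub ((continuous_const.sub wc).mul (continuous_const.sub hc))
  have v0 : ∀ x, 0 ≤ 1 - (1 - w x) * (1 - h x) := fun x => by
    have := congrFun ev x
    calc (0:ℝ) ≤ w x + χ x := add_nonneg (w0 x) (χ0 x)
      _ = 1 - (1 - w x) * (1 - h x) := this.symm
  have v1 : ∀ x, 1 - (1 - w x) * (1 - h x) ≤ 1 := fun x => by
    have := mul_nonneg (sub_nonneg.2 (w1 x)) (sub_nonneg.2 (h1 x))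
    linarith
  have eA : Amat ψ (fun x => 1 - (1 - w x) * (1 - h x)) = Amat ψ w + Amat ψ χ := by
    rw [ev]; exact amat_add ψ wc w0 w1 χc χ0 χ1
  have one_int : ∀ c : Fin N → ℂ, Integrable (fun t : ℝ => ‖fc ψ c t‖ ^ 2) := fun c => by
    simpa using integrable_fc ψ (φ := fun _ => (1:ℝ)) continuous_const
      (fun _ => zero_le_one) (fun _ => le_rfl) c
  have bes' : ∀ c : Fin N → ℂ, ∫ x : ℝ, ‖fc ψ c x‖ ^ 2 ≤ ∑ a, ‖c a‖ ^ 2 := bes
  -- positive definiteness
  have hpd : (1 - Amat ψ w).PosDef := by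
    refine Matrix.PosDef.of_dotProduct_mulVec_pos
      (Matrix.isHermitian_one.sub (herm ψ w)) fun c hcne => ?_
    rw [quad_one_sub ψ wc w0 w1 c, Complex.zero_lt_real]
    have hpos : 0 < ∑ a, ‖c a‖ ^ 2 := by
      obtain ⟨a, ha⟩ := Function.ne_iff.1 hcne
      refine Finset.sum_pos' (fun _ _ => by positivity) ⟨a, Finset.mem_univ a, ?_⟩
      have : 0 < ‖c a‖ := norm_pos_iff.2 ha
      positivity
    have := hδ c
    nlinarith
  have hpsC : (Amat ψ χ).PosSemidef := psd ψ χc χ0 χ1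
  have esub : (1 - Amat ψ w) - Amat ψ χ =
      1 - Amat ψ (fun x => 1 - (1 - w x) * (1 - h x)) := by
    rw [eA]; abel
  have hps : ((1 - Amat ψ w) - Amat ψ χ).PosSemidef := by
    rw [esub]
    refine Matrix.PosSemidef.of_dotProduct_mulVec_nonneg
      (Matrix.isHermitian_one.sub (herm ψ _)) fun c => ?_
    rw [quad_one_sub ψ vc v0 v1 c, Complex.zero_le_real]
    have i1 : ∫ t : ℝ, (1 - (1 - w t) * (1 - h t)) * ‖fc ψ c t‖ ^ 2 ≤
        ∫ t : ℝ, ‖fc ψ c t‖ ^ 2 := by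
      refine integral_mono (integrable_fc ψ vc v0 v1 c) (one_int c) fun t => ?_
      have := mul_le_mul_of_nonneg_right (v1 t) (sq_nonneg ‖fc ψ c t‖)
      simpa using this
    have := bes' c
    linarith
  have key := hLA1 N (1 - Amat ψ w) (Amat ψ χ) (∫ x, h x * κ x) hpd hpsC hps ?_
  · rw [esub] at key
    exact key
  · intro p hp
    -- pointwise bound
    have pt : ∀ x : ℝ, ∑ i, ‖(G x : ℂ) * fc ψ (p i) x‖ ^ 2 ≤ κ x := by
      intro x
      set z : Fin N → ℂ := fun i => conj ((G x : ℂ) * fc ψ (p i) x) with hz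
      set q : ℝ := ∑ i, ‖(G x : ℂ) * fc ψ (p i) x‖ ^ 2 with hq
      have q0 : 0 ≤ q := Finset.sum_nonneg fun _ _ => by positivity
      have e1 : (G x : ℂ) * fc ψ (∑ i, z i • p i) x = (q : ℂ) := by
        rw [fc_lin, Finset.mul_sum, hq]
        push_cast
        refine Finset.sum_congr rfl fun i _ => ?_
        have : (G x : ℂ) * (z i * fc ψ (p i) x) =
            ((G x : ℂ) * fc ψ (p i) x) * conj ((G x : ℂ) * fc ψ (p i) x) := by
          rw [hz]; ring
        rw [this, Complex.mul_conj, Complex.normSq_eq_norm_sq]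
        push_cast; rfl
      have e2 : (∑ a, ‖(∑ i, z i • p i) a‖ ^ 2) -
          ∫ t : ℝ, w t * ‖fc ψ (∑ i, z i • p i) t‖ ^ 2 = q := by
        have a1 := quad_one_sub ψ wc w0 w1 (∑ i, z i • p i)
        have a2 := form_orth (1 - Amat ψ w) p hp z
        rw [a1] at a2
        have a3 := Complex.ofReal_injective a2
        rw [a3, hq]
        refine Finset.sum_congr rfl fun i _ => ?_
        rw [hz]
        simp only [RCLike.norm_conj]
      have e3 : ∫ t : ℝ, ‖(G t : ℂ) * fc ψ (∑ i, z i • p i) t‖ ^ 2 ≤ q := by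
        set c := ∑ i, z i • p i with hcdef
        have a1 : ∀ t : ℝ, ‖(G t : ℂ) * fc ψ c t‖ ^ 2 =
            ‖fc ψ c t‖ ^ 2 - w t * ‖fc ψ c t‖ ^ 2 := by
          intro t
          rw [norm_mul, mul_pow, Complex.norm_real, Real.norm_eq_abs, sq_abs, ← hG t]
          ring
        simp_rw [a1]
        rw [integral_sub (one_int c) (integrable_fc ψ wc w0 w1 c), ← e2]
        have := bes' c
        linarith
      have e4 := hκ (∑ i, z i • p i) x
      rw [e1, Complex.norm_real, Real.norm_eq_abs, sq_abs] at e4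
      have e5 : q ^ 2 ≤ κ x * q :=
        e4.trans (mul_le_mul_of_nonneg_left e3 (κ0 x))
      rcases q0.lt_or_eq with hpos | hzero
      · have : q * q ≤ κ x * q := by nlinarith
        exact le_of_mul_le_mul_right this hpos
      · rw [← hzero]; exact κ0 x
    have s1 : ∀ i, (dotProduct (star (p i)) ((Amat ψ χ).mulVec (p i))).re =
        ∫ t : ℝ, χ t * ‖fc ψ (p i) t‖ ^ 2 := by
      intro i
      rw [quad ψ χc χ0 χ1 (p i), Complex.ofReal_re]
    simp_rw [s1]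
    rw [← integral_finset_sum _ (fun i _ => integrable_fc ψ χc χ0 χ1 (p i))]
    refine integral_mono (integrable_finset_sum _ fun i _ => integrable_fc ψ χc χ0 χ1 (p i))
      hint fun t => ?_
    have e : ∑ i, χ t * ‖fc ψ (p i) t‖ ^ 2 =
        h t * ∑ i, ‖(G t : ℂ) * fc ψ (p i) t‖ ^ 2 := by
      rw [Finset.mul_sum]
      refine Finset.sum_congr rfl fun i _ => ?_
      rw [norm_mul, mul_pow, Complex.norm_real, Real.norm_eq_abs, sq_abs, ← hG t]
      simp only [hχ]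
      ring
    simp only
    rw [e]
    exact mul_le_mul_of_nonneg_left (pt t) (h0 t)

end R59.SP
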