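import Pool.Agent.R59.SP.Prob
import Pool.Agent.R136.SPSCHW
import Pool.Agent.R33.SPLA3
import Pool.Agent.R33.SPPROBINT
import Pool.Agent.R576.SPLA4
import Pool.Agent.R961.SPLA1
import Pool.Agent.R974.SP.PW2
import Pool.Agent.R974.SP.Mother
import Pool.Agent.R679.SP.Bonf
import Pool.Agent.R679.SP.IntP
import Pool.Agent.R679.SP.LimP

/-!
# All pieces except KER put together
-/

set_option autoImplicit false

noncomputable section

namespace R59.SP

open MeasureTheory Filter Topology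

theorem not_ae_main (hKER : S_KER) {Ω : Type} [MeasurableSpace Ω] (P : Measure Ω)
    [IsProbabilityMeasure P] (u : ℤ → Ω → ℝ) (B : ℝ)
    (hB : 0 < B) (hpp : IsPP P u) (hulm : ULM P u) (hm : MimicsSine P u B) (l : ℝ) :
    ¬ ∀ᵐ ω ∂P, ∃ j, |u j ω| ≤ l :=
  not_ae hKER R974.SP.pw1 R974.SP.pw2 R974.SP.mul R974.SP.mother R136.SPSCHW.schw
    R961.SPLA.la1 R961.SPLA.la2
    (R59.SP.LimP.lim R59.SP.IntP.int_main Pool.Agent.R33.la3 R576.SPLA4.la4)
    R59.SP.BonfP.bonf_main Pool.Agent.R33.SPP.probint P u B hB hpp hulm hm l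

end R59.SP
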