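import Pool.Agent.R59.SP.Defs

/-!
# Band limited functions: elementary closure properties, the functions `w`, `h`, `v`
-/

set_option autoImplicit false

noncomputable section

namespace R59.SP

open MeasureTheory Filter Topology
open scoped SchwartzMap FourierTransform ENNReal ComplexConjugate ComplexOrder

lemma BL.mono {σ τ : ℝ} {f : 𝓢(ℝ, ℂ)} (h : BL σ f) (hst : σ ≤ τ) : BL τ f :=
  fun ξ hξ => h ξ (lt_of_le_of_lt hst hξ)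

lemma fourier_add' (f g : 𝓢(ℝ, ℂ)) (ξ : ℝ) : 𝓕 (f + g) ξ = 𝓕 f ξ + 𝓕 g ξ := by
  rw [FourierTransform.fourier_add]; rfl

lemma BL.add {σ : ℝ} {f g : 𝓢(ℝ, ℂ)} (hf : BL σ f) (hg : BL σ g) : BL σ (f + g) := by
  intro ξ hξ
  rw [fourier_add', hf ξ hξ, hg ξ hξ, add_zero]

lemma BL.smul {σ : ℝ} {f : 𝓢(ℝ, ℂ)} (hf : BL σ f) (c : ℂ) : BL σ (c • f) := by
  intro ξ hξ
  have : 𝓕 (c • f) = c • 𝓕 f := FourierTransform.fourier_smul c f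
  rw [this, SchwartzMap.smul_apply, hf ξ hξ, smul_zero]

lemma BL.neg {σ : ℝ} {f : 𝓢(ℝ, ℂ)} (hf : BL σ f) : BL σ (-f) := by
  have := hf.smul (-1)
  simpa using this

lemma BL.sub {σ : ℝ} {f g : 𝓢(ℝ, ℂ)} (hf : BL σ f) (hg : BL σ g) : BL σ (f - g) := by
  rw [sub_eq_add_neg]; exact hf.add hg.neg

lemma BL.sum {σ : ℝ} {ι : Type} (s : Finset ι) (f : ι → 𝓢(ℝ, ℂ)) (hf : ∀ i ∈ s, BL σ (f i)) :
    BL σ (∑ i ∈ s, f i) := by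
  classical
  induction s using Finset.induction_on with
  | empty =>
    intro ξ _
    have : 𝓕 (0 : 𝓢(ℝ, ℂ)) = 0 := by
      have := FourierTransform.fourier_smul (0:ℂ) (0 : 𝓢(ℝ, ℂ))
      simpa using this
    simp [this]
  | insert a s ha ih =>
    rw [Finset.sum_insert ha]
    exact (hf a (Finset.mem_insert_self a s)).add
      (ih (fun i hi => hf i (Finset.mem_insert_of_mem hi)))

/-- `1 - (1-f)(1-g)` for real functions given by band limited Schwartz functions. -/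
lemma comb (hMUL : S_MUL) {σ τ : ℝ} (hσ : 0 ≤ σ) (hτ : 0 ≤ τ) {f g : ℝ → ℝ} {F G : 𝓢(ℝ, ℂ)}
    (hF : ∀ x, F x = ((f x : ℝ) : ℂ)) (hG : ∀ x, G x = ((g x : ℝ) : ℂ))
    (bF : BL σ F) (bG : BL τ G) :
    ∃ H : 𝓢(ℝ, ℂ), (∀ x, H x = ((1 - (1 - f x) * (1 - g x) : ℝ) : ℂ)) ∧ BL (σ + τ) H := by
  obtain ⟨M, hM, bM⟩ := hMUL σ τ F G bF bG
  refine ⟨F + G - M, ?_, ?_⟩
  · intro x
    rw [SchwartzMap.sub_apply, SchwartzMap.add_apply, hM, hF, hG]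
    push_cast
    ring
  · exact ((bF.mono (by linarith)).add (bG.mono (by linarith))).sub bM

/-- `1 - (1-ψ)^k`. -/
lemma wpow (hMUL : S_MUL) {ε : ℝ} (hε : 0 ≤ ε) {ψ : ℝ → ℝ} {Ψ : 𝓢(ℝ, ℂ)}
    (hΨ : ∀ x, Ψ x = ((ψ x : ℝ) : ℂ)) (bΨ : BL ε Ψ) (k : ℕ) :
    ∃ H : 𝓢(ℝ, ℂ), (∀ x, H x = ((1 - (1 - ψ x) ^ k : ℝ) : ℂ)) ∧ BL (k * ε) H := by
  induction k with
  | zero =>
    refine ⟨0, fun x => by simp, ?_⟩
    have h0 : BL (0 : ℝ) (∑ i ∈ (∅ : Finset ℕ), (0 : 𝓢(ℝ, ℂ))) := BL.sum ∅ _ (by simp)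
    simpa using h0
  | succ k ih =>
    obtain ⟨H, hH, bH⟩ := ih
    obtain ⟨H', hH', bH'⟩ := comb hMUL (by positivity) hε hH hΨ bH bΨ
    refine ⟨H', ?_, ?_⟩
    · intro x
      rw [hH']
      congr 1
      ring
    · refine bH'.mono ?_
      push_cast
      linarith

/-- `(1-ψ)^k f`. -/
lemma fpow (hMUL : S_MUL) {ε σ : ℝ} (hε : 0 ≤ ε) {ψ : ℝ → ℝ} {Ψ : 𝓢(ℝ, ℂ)}
    (hΨ : ∀ x, Ψ x = ((ψ x : ℝ) : ℂ)) (bΨ : BL ε Ψ) {f : 𝓢(ℝ, ℂ)} (bf : BL σ f) (k : ℕ) :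
    ∃ H : 𝓢(ℝ, ℂ), (∀ x, H x = (((1 - ψ x) ^ k : ℝ) : ℂ) * f x) ∧ BL (σ + k * ε) H := by
  induction k with
  | zero => exact ⟨f, fun x => by simp, by simpa using bf⟩
  | succ k ih =>
    obtain ⟨H, hH, bH⟩ := ih
    obtain ⟨M, hM, bM⟩ := hMUL _ _ Ψ H bΨ bH
    refine ⟨H - M, ?_, ?_⟩
    · intro x
      rw [SchwartzMap.sub_apply, hM, hH, hΨ]
      push_cast
      ring
    · refine (bH.mono ?_).sub (bM.mono ?_)
      · push_cast; nlinarith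
      · push_cast; linarith

/-- A Schwartz function which takes real nonnegative values decays like `1/(1+x^2)`. -/
lemma decay {φ : ℝ → ℝ} {Φ : 𝓢(ℝ, ℂ)} (hΦ : ∀ x, Φ x = ((φ x : ℝ) : ℂ)) :
    ∃ C : ℝ, ∀ x, φ x ≤ C / (1 + x ^ 2) := by
  obtain ⟨C0, hC0⟩ := Φ.decay 0 0
  obtain ⟨C2, hC2⟩ := Φ.decay 2 0
  refine ⟨C0 + C2, fun x => ?_⟩
  have h0 := hC0.2 x
  have h2 := hC2.2 x
  simp only [pow_zero, one_mul, norm_iteratedFDeriv_zero, Real.norm_eq_abs, sq_abs] at h0 h2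
  rw [hΦ] at h0 h2
  rw [Complex.norm_real, Real.norm_eq_abs] at h0 h2
  rw [le_div_iff₀ (by positivity)]
  have := le_abs_self (φ x)
  nlinarith [sq_nonneg x, abs_nonneg (φ x)]

lemma cont_of {φ : ℝ → ℝ} {Φ : 𝓢(ℝ, ℂ)} (hΦ : ∀ x, Φ x = ((φ x : ℝ) : ℂ)) : Continuous φ := by
  have : φ = fun x => (Φ x).re := by
    funext x; rw [hΦ]; simp
  rw [this]
  exact Complex.continuous_re.comp Φ.continuous

lemma integrable_of {φ : ℝ → ℝ} {Φ : 𝓢(ℝ, ℂ)} (hΦ : ∀ x, Φ x = ((φ x : ℝ) : ℂ)) :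
    Integrable φ := by
  have h := (Φ.integrable (μ := volume)).re
  refine h.congr (Filter.Eventually.of_forall fun x => ?_)
  simp [hΦ]

end R59.SP
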