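import Pool.Agent.R59.SP.Fn

/-!
# The matrices `∫ φ ψ_q conj ψ_p`
-/

set_option autoImplicit false

noncomputable section

namespace R59.SP

open MeasureTheory Filter Topology
open scoped SchwartzMap FourierTransform ENNReal ComplexConjugate ComplexOrder

/-- The matrix of `φ` in the family `ψ`. -/
def Amat {N : ℕ} (ψ : Fin N → 𝓢(ℝ, ℂ)) (φ : ℝ → ℝ) : Matrix (Fin N) (Fin N) ℂ :=
  Matrix.of fun p q => ∫ t : ℝ, (φ t : ℂ) * (ψ q t * conj (ψ p t))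

/-- The function with coefficients `c`. -/
def fc {N : ℕ} (ψ : Fin N → 𝓢(ℝ, ℂ)) (c : Fin N → ℂ) (t : ℝ) : ℂ := ∑ a, c a * ψ a t

lemma schwartz_bdd (f : 𝓢(ℝ, ℂ)) : ∃ C : ℝ, ∀ x, ‖f x‖ ≤ C := by
  obtain ⟨C, hC⟩ := f.decay 0 0
  refine ⟨C, fun x => ?_⟩
  have := hC.2 x
  simpa using this

lemma integrable_prod2 {φ : ℝ → ℝ} (hc : Continuous φ) (h0 : ∀ x, 0 ≤ φ x) (h1 : ∀ x, φ x ≤ 1)
    (f g : 𝓢(ℝ, ℂ)) : Integrable (fun t : ℝ => (φ t : ℂ) * (f t * conj (g t))) := by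
  obtain ⟨C, hC⟩ := schwartz_bdd g
  have hf : Integrable (fun t : ℝ => f t) := f.integrable
  have := hf.bdd_mul (c := C) (f := fun t : ℝ => (φ t : ℂ) * conj (g t)) ?_ ?_
  · refine this.congr (Filter.Eventually.of_forall fun t => ?_)
    simp only
    ring
  · exact ((Complex.continuous_ofReal.comp hc).mul
      (Complex.continuous_conj.comp g.continuous)).aestronglyMeasurable
  · refine Filter.Eventually.of_forall fun t => ?_
    rw [norm_mul, Complex.norm_real, RCLike.norm_conj, Real.norm_eq_abs, abs_of_nonneg (h0 t)]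
    calc φ t * ‖g t‖ ≤ 1 * ‖g t‖ := by
          apply mul_le_mul_of_nonneg_right (h1 t) (norm_nonneg _)
      _ ≤ C := by rw [one_mul]; exact hC t

lemma fc_eq {N : ℕ} (ψ : Fin N → 𝓢(ℝ, ℂ)) (c : Fin N → ℂ) (t : ℝ) :
    fc ψ c t = (∑ a, c a • ψ a : 𝓢(ℝ, ℂ)) t := by
  unfold fc
  rw [SchwartzMap.sum_apply]
  rfl

lemma integrable_fc {N : ℕ} (ψ : Fin N → 𝓢(ℝ, ℂ)) {φ : ℝ → ℝ} (hc : Continuous φ)
    (h0 : ∀ x, 0 ≤ φ x) (h1 : ∀ x, φ x ≤ 1) (c : Fin N → ℂ) :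
    Integrable (fun t : ℝ => φ t * ‖fc ψ c t‖ ^ 2) := by
  have h := (integrable_prod2 hc h0 h1 (∑ a, c a • ψ a) (∑ a, c a • ψ a)).re
  refine h.congr (Filter.Eventually.of_forall fun t => ?_)
  simp only [← fc_eq]
  rw [Complex.mul_conj, Complex.normSq_eq_norm_sq]
  simp [← Complex.ofReal_mul, ← Complex.ofReal_pow]

/-- The quadratic form. -/
lemma quad {N : ℕ} (ψ : Fin N → 𝓢(ℝ, ℂ)) {φ : ℝ → ℝ} (hc : Continuous φ)
    (h0 : ∀ x, 0 ≤ φ x) (h1 : ∀ x, φ x ≤ 1) (c : Fin N → ℂ) :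
    dotProduct (star c) ((Amat ψ φ).mulVec c) = ((∫ t : ℝ, φ t * ‖fc ψ c t‖ ^ 2 : ℝ) : ℂ) := by
  rw [← integral_complex_ofReal]
  have e : ∀ t : ℝ, ((φ t * ‖fc ψ c t‖ ^ 2 : ℝ) : ℂ) =
      ∑ p, ∑ q, (star (c p) * c q) * ((φ t : ℂ) * (ψ q t * conj (ψ p t))) := by
    intro t
    have : ((φ t * ‖fc ψ c t‖ ^ 2 : ℝ) : ℂ) = (φ t : ℂ) * (conj (fc ψ c t) * fc ψ c t) := by
      rw [mul_comm (conj (fc ψ c t)), Complex.mul_conj, Complex.normSq_eq_norm_sq]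
      push_cast; ring
    rw [this]
    unfold fc
    rw [map_sum, Finset.sum_mul_sum, Finset.mul_sum]
    refine Finset.sum_congr rfl fun p _ => ?_
    rw [Finset.mul_sum]
    refine Finset.sum_congr rfl fun q _ => ?_
    rw [map_mul]
    simp only [Complex.star_def]
    ring
  simp_rw [e]
  rw [integral_finset_sum]
  · unfold dotProduct Matrix.mulVec dotProduct
    refine Finset.sum_congr rfl fun p _ => ?_
    rw [integral_finset_sum]
    · rw [Finset.mul_sum]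
      refine Finset.sum_congr rfl fun q _ => ?_
      rw [integral_const_mul]
      simp only [Amat, Matrix.of_apply, Pi.star_apply]
      ring
    · intro q _
      exact (integrable_prod2 hc h0 h1 (ψ q) (ψ p)).const_mul _
  · intro p _
    exact integrable_finset_sum _ fun q _ =>
      (integrable_prod2 hc h0 h1 (ψ q) (ψ p)).const_mul _

lemma herm {N : ℕ} (ψ : Fin N → 𝓢(ℝ, ℂ)) (φ : ℝ → ℝ) : (Amat ψ φ).IsHermitian := by
  ext p q
  simp only [Amat, Matrix.conjTranspose_apply, Matrix.of_apply]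
  rw [Complex.star_def, ← integral_conj]
  congr 1
  funext t
  simp only [map_mul, Complex.conj_ofReal, Complex.conj_conj]
  ring

lemma psd {N : ℕ} (ψ : Fin N → 𝓢(ℝ, ℂ)) {φ : ℝ → ℝ} (hc : Continuous φ)
    (h0 : ∀ x, 0 ≤ φ x) (h1 : ∀ x, φ x ≤ 1) : (Amat ψ φ).PosSemidef := by
  refine Matrix.PosSemidef.of_dotProduct_mulVec_nonneg (herm ψ φ) fun c => ?_
  rw [quad ψ hc h0 h1 c]
  rw [Complex.zero_le_real]
  exact integral_nonneg fun t => mul_nonneg (h0 t) (by positivity)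

lemma amat_add {N : ℕ} (ψ : Fin N → 𝓢(ℝ, ℂ)) {φ χ : ℝ → ℝ} (hc : Continuous φ)
    (h0 : ∀ x, 0 ≤ φ x) (h1 : ∀ x, φ x ≤ 1) (kc : Continuous χ)
    (k0 : ∀ x, 0 ≤ χ x) (k1 : ∀ x, χ x ≤ 1) :
    Amat ψ (fun x => φ x + χ x) = Amat ψ φ + Amat ψ χ := by
  ext p q
  simp only [Amat, Matrix.add_apply, Matrix.of_apply]
  rw [← integral_add (integrable_prod2 hc h0 h1 (ψ q) (ψ p))
    (integrable_prod2 kc k0 k1 (ψ q) (ψ p))]
  congr 1
  funext t
  push_cast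
  ring

lemma dot_self {N : ℕ} (c : Fin N → ℂ) :
    dotProduct (star c) c = ((∑ a, ‖c a‖ ^ 2 : ℝ) : ℂ) := by
  unfold dotProduct
  push_cast
  refine Finset.sum_congr rfl fun a _ => ?_
  rw [Pi.star_apply, Complex.star_def, mul_comm, Complex.mul_conj, Complex.normSq_eq_norm_sq]
  push_cast
  rfl

lemma quad_one_sub {N : ℕ} (ψ : Fin N → 𝓢(ℝ, ℂ)) {φ : ℝ → ℝ} (hc : Continuous φ)
    (h0 : ∀ x, 0 ≤ φ x) (h1 : ∀ x, φ x ≤ 1) (c : Fin N → ℂ) :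
    dotProduct (star c) ((1 - Amat ψ φ).mulVec c) =
      ((∑ a, ‖c a‖ ^ 2 - ∫ t : ℝ, φ t * ‖fc ψ c t‖ ^ 2 : ℝ) : ℂ) := by
  rw [Matrix.sub_mulVec, dotProduct_sub, Matrix.one_mulVec, dot_self, quad ψ hc h0 h1 c]
  push_cast
  rfl

lemma trace_eq {N : ℕ} (ψ : Fin N → 𝓢(ℝ, ℂ)) {φ : ℝ → ℝ} (hc : Continuous φ)
    (h0 : ∀ x, 0 ≤ φ x) (h1 : ∀ x, φ x ≤ 1) (hi : Integrable φ)
    (hb : ∀ x, ∑ a, ‖ψ a x‖ ^ 2 ≤ 1) : ((Amat ψ φ).trace).re ≤ ∫ t, φ t := by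
  have e : (Amat ψ φ).trace = ((∫ t, φ t * ∑ a, ‖ψ a t‖ ^ 2 : ℝ) : ℂ) := by
    rw [← integral_complex_ofReal]
    unfold Matrix.trace
    have : ∀ t : ℝ, ((φ t * ∑ a, ‖ψ a t‖ ^ 2 : ℝ) : ℂ) =
        ∑ a, (φ t : ℂ) * (ψ a t * conj (ψ a t)) := by
      intro t
      push_cast
      rw [Finset.mul_sum]
      refine Finset.sum_congr rfl fun a _ => ?_
      rw [Complex.mul_conj, Complex.normSq_eq_norm_sq]
      push_cast; rfl
    simp_rw [this]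
    rw [integral_finset_sum]
    · rfl
    · intro a _
      exact integrable_prod2 hc h0 h1 (ψ a) (ψ a)
  rw [e, Complex.ofReal_re]
  refine integral_mono_of_nonneg ?_ hi ?_
  · refine Filter.Eventually.of_forall fun t => ?_
    exact mul_nonneg (h0 t) (Finset.sum_nonneg fun a _ => by positivity)
  · refine Filter.Eventually.of_forall fun t => ?_
    simpa using mul_le_mul_of_nonneg_left (hb t) (h0 t)

end R59.SP
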