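import Pool.Agent.R59.SP.Core

/-!
# The probabilistic part and the conclusion
-/

set_option autoImplicit false

noncomputable section

namespace R59.SP

open MeasureTheory Filter Topology
open scoped SchwartzMap FourierTransform ENNReal ComplexConjugate ComplexOrder

lemma W_zero (φ : ℝ → ℝ) (u : ℤ → ℝ) : W 0 φ u = 1 := by
  unfold W
  have : ∀ j : Fin 0 ↪ ℤ, ∏ i, φ (u (j i)) = 1 := fun j => by simp
  simp_rw [this]
  have : Unique (Fin 0 ↪ ℤ) :=
    { default := ⟨fun i => i.elim0, fun i => i.elim0⟩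
      uniq := fun j => by ext i; exact i.elim0 }
  rw [tsum_fintype]
  simp

lemma Iint_zero (φ : ℝ → ℝ) : Iint 0 φ = 1 := by
  unfold Iint
  have : (fun x : Fin 0 → ℝ => (∏ i, φ (x i)) * Matrix.det (Matrix.of fun i k => S (x i - x k))) =
      fun _ => (1 : ℝ) := by
    funext x
    simp
  rw [this]
  have h1 : (volume : Measure (Fin 0 → ℝ)).real Set.univ = 1 := by
    have : (Set.univ : Set (Fin 0 → ℝ)) = Set.pi Set.univ (fun _ => Set.univ) := by simp
    rw [Measure.real, this, volume_pi_pi]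
    simp
  simp [h1]

variable {Ω : Type} [MeasurableSpace Ω]

lemma expect_W (hSCHW : S_SCHW) {P : Measure Ω} [IsProbabilityMeasure P] {u : ℤ → Ω → ℝ} {B : ℝ}
    (hm : MimicsSine P u B) {φ : ℝ → ℝ} {Φ : 𝓢(ℝ, ℂ)} (hΦ : ∀ x, Φ x = ((φ x : ℝ) : ℂ))
    (bΦ : BL B Φ) (n : ℕ) : ∫ ω, W n φ (fun j => u j ω) ∂P = Iint n φ := by
  rcases Nat.eq_zero_or_pos n with rfl | hn
  · simp_rw [W_zero]
    rw [Iint_zero]
    simp
  · obtain ⟨η, hη, hFT⟩ := hSCHW B Φ bΦ n
    have h := hm n hn η hFT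
    unfold corr sineCorr at h
    have e1 : ∀ ω, ∑' j : (Fin n ↪ ℤ), η (fun i => u (j i) ω) =
        ((W n φ (fun j => u j ω) : ℝ) : ℂ) := by
      intro ω
      unfold W
      rw [Complex.ofReal_tsum]
      refine tsum_congr fun j => ?_
      rw [hη]
      push_cast
      exact Finset.prod_congr rfl fun i _ => hΦ _
    have e2 : ∀ x : Fin n → ℝ,
        η x * ((Matrix.det (Matrix.of fun i k => S (x i - x k)) : ℝ) : ℂ) =
        (((∏ i, φ (x i)) * Matrix.det (Matrix.of fun i k => S (x i - x k)) : ℝ) : ℂ) := by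
      intro x
      rw [hη, Complex.ofReal_mul, Complex.ofReal_prod]
      congr 1
      exact Finset.prod_congr rfl fun i _ => hΦ _
    simp_rw [e1, e2] at h
    rw [integral_complex_ofReal, integral_complex_ofReal] at h
    exact Complex.ofReal_injective h

theorem not_ae (hKER : S_KER) (hPW1 : S_PW1) (hPW2 : S_PW2) (hMUL : S_MUL) (hMO : S_MOTHER)
    (hSCHW : S_SCHW) (hLA1 : S_LA1) (hLA2 : S_LA2) (hLIM : S_LIM) (hBONF : S_BONF)
    (hPI : S_PROBINT) (P : Measure Ω) [IsProbabilityMeasure P] (u : ℤ → Ω → ℝ) (B : ℝ)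
    (hB : 0 < B) (hpp : IsPP P u) (hulm : ULM P u) (hm : MimicsSine P u B) (l : ℝ) :
    ¬ ∀ᵐ ω ∂P, ∃ j, |u j ω| ≤ l := by
  intro hae
  obtain ⟨w, h, v, Wf, Hf, Vf, hWf, hHf, hVf, bW, bV, w0, w1, h0, h1, hv, hhalf, sumv, sumw,
    hlt⟩ := core hKER hPW1 hPW2 hMUL hMO hLA1 hLA2 hLIM B hB l
  have v0 : ∀ x, 0 ≤ v x := fun x => by
    have h2 := hv x
    have := mul_le_one₀ (a := 1 - w x) (b := 1 - h x) (by linarith [w0 x])
      (by linarith [h1 x]) (by linarith [h0 x])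
    linarith
  obtain ⟨sw, iw⟩ := hPI P u hpp hulm w (cont_of hWf) w0 (decay hWf)
  obtain ⟨sh, _⟩ := hPI P u hpp hulm h (cont_of hHf) h0 (decay hHf)
  obtain ⟨_, iv⟩ := hPI P u hpp hulm v (cont_of hVf) v0 (decay hVf)
  have key : ∀ m : ℕ,
      ∑ n ∈ Finset.range (2 * m + 2), ((-1 : ℝ) ^ n / (n.factorial : ℝ)) * Iint n v ≤
      (1 / 2) * ∑ n ∈ Finset.range (2 * m + 1), ((-1 : ℝ) ^ n / (n.factorial : ℝ)) * Iint n w := by
    intro m
    have hpt : ∀ᵐ ω ∂P,
        ∑ n ∈ Finset.range (2 * m + 2), ((-1 : ℝ) ^ n / (n.factorial : ℝ)) *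
          W n v (fun j => u j ω) ≤
        (1 / 2) * ∑ n ∈ Finset.range (2 * m + 1), ((-1 : ℝ) ^ n / (n.factorial : ℝ)) *
          W n w (fun j => u j ω) := by
      filter_upwards [hae, sw, sh] with ω hω hsw hsh
      obtain ⟨j0, hj0⟩ := hω
      exact hBONF (fun j => u j ω) v w h w0 w1 h0 h1 hv hsw hsh ⟨j0, hhalf _ hj0⟩ m
    have i1 : Integrable (fun ω => ∑ n ∈ Finset.range (2 * m + 2),
        ((-1 : ℝ) ^ n / (n.factorial : ℝ)) * W n v (fun j => u j ω)) P :=
      integrable_finset_sum _ fun n _ => (iv n).const_mul _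
    have i2 : Integrable (fun ω => ∑ n ∈ Finset.range (2 * m + 1),
        ((-1 : ℝ) ^ n / (n.factorial : ℝ)) * W n w (fun j => u j ω)) P :=
      integrable_finset_sum _ fun n _ => (iw n).const_mul _
    have := integral_mono_ae i1 (i2.const_mul (1 / 2)) hpt
    rw [integral_const_mul, integral_finset_sum _ (fun n _ => (iv n).const_mul _),
      integral_finset_sum _ (fun n _ => (iw n).const_mul _)] at this
    simp_rw [integral_const_mul, expect_W hSCHW hm hVf bV, expect_W hSCHW hm hWf bW] at this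
    exact this
  have t1 : Tendsto (fun m : ℕ => ∑ n ∈ Finset.range (2 * m + 2),
      ((-1 : ℝ) ^ n / (n.factorial : ℝ)) * Iint n v) atTop (𝓝 (Dser v)) := by
    refine sumv.hasSum.tendsto_sum_nat.comp ?_
    exact tendsto_atTop_mono (fun m => by show m ≤ 2 * m + 2; omega) tendsto_id
  have t2 : Tendsto (fun m : ℕ => ∑ n ∈ Finset.range (2 * m + 1),
      ((-1 : ℝ) ^ n / (n.factorial : ℝ)) * Iint n w) atTop (𝓝 (Dser w)) := by
    refine sumw.hasSum.tendsto_sum_nat.comp ?_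
    exact tendsto_atTop_mono (fun m => by show m ≤ 2 * m + 1; omega) tendsto_id
  have := le_of_tendsto_of_tendsto' t1 (t2.const_mul (1 / 2)) key
  linarith

/-- Bounded gaps force a point near the origin. -/
lemma exists_point {u : ℤ → ℝ} (top : Tendsto u atTop atTop)
    (bot : Tendsto u atBot atBot) {l : ℝ} (hl : ∀ j, |u (j + 1) - u j| ≤ l) :
    ∃ j, |u j| ≤ l := by
  obtain ⟨a, ha⟩ := (top.eventually_gt_atTop 0).exists
  obtain ⟨b, hb⟩ := Filter.eventually_atBot.1 (bot.eventually_le_atBot 0)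
  obtain ⟨j, hj, hmin⟩ := Int.exists_least_of_bdd (P := fun j => 0 < u j)
    ⟨b, fun z hz => by
      by_contra hcon
      push Not at hcon
      exact absurd (hb z hcon.le) (not_le.2 hz)⟩ ⟨a, ha⟩
  refine ⟨j, ?_⟩
  have h1 : u (j - 1) ≤ 0 := by
    by_contra hcon
    push Not at hcon
    have := hmin (j - 1) hcon
    omega
  have h2 := hl (j - 1)
  rw [sub_add_cancel] at h2
  have h3 := (abs_le.1 h2).2
  rw [abs_of_pos hj]
  linarith

end R59.SP
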